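import Pool.Agent.Work.MP_65e34f.Basic

namespace Pool.FG.helper27

open Matrix

section
variable {K : Type} [Field K]

/-- the three equations of the commutant -/
lemma comm_eqs {x : SL K} {y : M2 K} (h : (x : M2 K) * y = y * (x : M2 K)) :
    x.1 0 1 * y 1 0 = y 0 1 * x.1 1 0 ∧
    y 0 1 * (x.1 0 0 - x.1 1 1) = x.1 0 1 * (y 0 0 - y 1 1) ∧
    x.1 1 0 * (y 0 0 - y 1 1) = y 1 0 * (x.1 0 0 - x.1 1 1) := by
  have h00 := congrFun (congrFun h 0) 0
  have h01 := congrFun (congrFun h 0) 1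
  have h10 := congrFun (congrFun h 1) 0
  simp only [Matrix.mul_apply, Fin.sum_univ_two] at h00 h01 h10
  refine ⟨?_, ?_, ?_⟩
  · linear_combination h00
  · linear_combination h01
  · linear_combination h10

/-- `tr (x y)` -/
def tw (x : SL K) (y : M2 K) : K :=
  x.1 0 0 * y 0 0 + x.1 0 1 * y 1 0 + x.1 1 0 * y 0 1 + x.1 1 1 * y 1 1

lemma comm_unique {x z : SL K} {y : M2 K} (hd : dsc y ≠ 0)
    (hx : (x : M2 K) * y = y * (x : M2 K)) (hz : (z : M2 K) * y = y * (z : M2 K))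
    (ht : tr x = tr z) (hw : tw x y = tw z y) : x = z := by
  obtain ⟨x1, x2, x3⟩ := comm_eqs hx
  obtain ⟨z1, z2, z3⟩ := comm_eqs hz
  simp only [tr] at ht
  simp only [tw] at hw
  simp only [dsc, Matrix.det_fin_two] at hd
  have key : ∀ u : K, ((y 0 0 + y 1 1) ^ 2 - 4 * (y 0 0 * y 1 1 - y 0 1 * y 1 0)) * u = 0 → u = 0 := by
    intro u hu
    rcases mul_eq_zero.mp hu with h | h
    · exact absurd h hd
    · exact h
  have e00 : x.1 0 0 - z.1 0 0 = 0 := by
    apply key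
    linear_combination y 1 0 * (x2 - z2) - y 0 1 * (-x3 + z3) * (-1 : K) * (-1 : K) * (-1 : K) +
      (y 0 0 ^ 2 + y 1 1 ^ 2 + 2 * y 0 1 * y 1 0 - (y 0 0 + y 1 1) * y 0 0) * ht +
      (y 0 0 - y 1 1) * hw
  have e01 : x.1 0 1 - z.1 0 1 = 0 := by
    apply key
    linear_combination -(y 0 0 - y 1 1) * (x2 - z2) + 2 * y 0 1 * (x1 - z1) +
      y 0 1 * (2 * hw - (y 0 0 + y 1 1) * ht)
  have e10 : x.1 1 0 - z.1 1 0 = 0 := by
    apply key
    linear_combination (y 0 0 - y 1 1) * (x3 - z3) - 2 * y 1 0 * (x1 - z1) +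
      y 1 0 * (2 * hw - (y 0 0 + y 1 1) * ht)
  have e11 : x.1 1 1 - z.1 1 1 = 0 := by linear_combination ht - e00
  ext i j
  fin_cases i <;> fin_cases j
  · exact sub_eq_zero.mp e00
  · exact sub_eq_zero.mp e01
  · exact sub_eq_zero.mp e10
  · exact sub_eq_zero.mp e11

lemma quad {x : SL K} {y : M2 K} (hx : (x : M2 K) * y = y * (x : M2 K)) :
    tw x y ^ 2 - (y 0 0 + y 1 1) * tr x * tw x y + y.det * tr x ^ 2 + dsc y = 0 := by
  obtain ⟨x1, x2, x3⟩ := comm_eqs hx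
  have hdet := det_eq x
  simp only [tr, tw, dsc, Matrix.det_fin_two]
  linear_combination (x.1 0 1 * y 1 0 - y 0 1 * x.1 1 0) * x1 +
    (x.1 1 0 * (y 0 0 - y 1 1) - y 1 0 * (x.1 0 0 - x.1 1 1)) * x2 -
    ((y 0 0 + y 1 1) ^ 2 - 4 * (y 0 0 * y 1 1 - y 0 1 * y 1 0)) * hdet

lemma tr_zero {x : SL K} {y : M2 K} (hd : dsc y ≠ 0)
    (hx : (x : M2 K) * y = ((y 0 0 + y 1 1) • (1 : M2 K) - y) * (x : M2 K)) : tr x = 0 := by
  have h00 := congrFun (congrFun hx 0) 0
  have h01 := congrFun (congrFun hx 0) 1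
  have h10 := congrFun (congrFun hx 1) 0
  have h11 := congrFun (congrFun hx 1) 1
  simp [Matrix.mul_apply, Fin.sum_univ_two] at h00 h01 h10 h11
  simp only [dsc, Matrix.det_fin_two] at hd
  simp only [tr]
  have h : ((y 0 0 + y 1 1) ^ 2 - 4 * (y 0 0 * y 1 1 - y 0 1 * y 1 0)) * (x.1 0 0 + x.1 1 1) = 0 := by
    linear_combination (y 0 0 - y 1 1) * (h00 - h11) + 4 * y 1 0 * h01
  rcases mul_eq_zero.mp h with h | h
  · exact absurd h hd
  · exact h

/-- the torus elements of given trace -/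
lemma torus_trace [Finite K] {y : M2 K} (hd : dsc y ≠ 0) (τ : K) :
    Set.ncard {x : SL K | (x : M2 K) * y = y * (x : M2 K) ∧ tr x = τ} ≤ 2 := by
  classical
  rcases Set.eq_empty_or_nonempty {x : SL K | (x : M2 K) * y = y * (x : M2 K) ∧ tr x = τ} with h | h
  · rw [h]; simp
  obtain ⟨x0, hx0, ht0⟩ := h
  have hinj : Set.InjOn (fun x : SL K => tw x y)
      {x : SL K | (x : M2 K) * y = y * (x : M2 K) ∧ tr x = τ} := by
    rintro x ⟨hx, hxt⟩ z ⟨hz, hzt⟩ hxz
    exact comm_unique hd hx hz (hxt.trans hzt.symm) hxz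
  rw [← Set.InjOn.ncard_image hinj]
  have hsub : (fun x : SL K => tw x y) '' {x : SL K | (x : M2 K) * y = y * (x : M2 K) ∧ tr x = τ} ⊆
      {tw x0 y, (y 0 0 + y 1 1) * τ - tw x0 y} := by
    rintro _ ⟨x, ⟨hx, hxt⟩, rfl⟩
    have h1 := quad hx
    have h0 := quad hx0
    rw [hxt] at h1
    rw [ht0] at h0
    have h2 : (tw x y - tw x0 y) * (tw x y - ((y 0 0 + y 1 1) * τ - tw x0 y)) = 0 := by
      linear_combination h1 - h0
    rcases mul_eq_zero.mp h2 with h | h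
    · left; exact sub_eq_zero.mp h
    · right; exact sub_eq_zero.mp h
  calc _ ≤ Set.ncard ({tw x0 y, (y 0 0 + y 1 1) * τ - tw x0 y} : Set K) :=
        Set.ncard_le_ncard hsub (Set.toFinite _)
    _ ≤ 2 := (Set.ncard_insert_le _ _).trans (by simp)

lemma torus_card [Finite K] {y : M2 K} (hd : dsc y ≠ 0) :
    Set.ncard {x : SL K | (x : M2 K) * y = y * (x : M2 K)} ≤ 2 * Nat.card K := by
  have h := ncard_le_mul_of_fiber (s := {x : SL K | (x : M2 K) * y = y * (x : M2 K)})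
    (t := (Set.univ : Set K)) (Set.toFinite _) (Set.toFinite _) tr (fun _ _ => trivial) 2
    (fun τ _ => by
      have := torus_trace hd τ
      simpa only [Set.mem_ofPred_eq] using this)
  rw [Set.ncard_univ] at h
  omega

lemma mul_comm_of_outer {x z : SL K} {y : M2 K}
    (hx : (x : M2 K) * y = ((y 0 0 + y 1 1) • (1 : M2 K) - y) * (x : M2 K))
    (hz : (z : M2 K) * y = ((y 0 0 + y 1 1) • (1 : M2 K) - y) * (z : M2 K)) :
    ((x * z : SL K) : M2 K) * y = y * ((x * z : SL K) : M2 K) := by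
  rw [Matrix.SpecialLinearGroup.coe_mul, mul_assoc, hz, ← mul_assoc, mul_sub, hx]
  simp [sub_mul, mul_assoc]

theorem stmt_TOB : Stmt_TOB := by
  intro K _ _ y hd
  have h5 : ∀ x ∈ Nor y, ∀ z ∈ Nor y, (x : M2 K) * y ≠ y * (x : M2 K) →
      (z : M2 K) * y ≠ y * (z : M2 K) →
      ((x * z : SL K) : M2 K) * y = y * ((x * z : SL K) : M2 K) := by
    intro x hx z hz hxn hzn
    exact mul_comm_of_outer (hx.resolve_left hxn) (hz.resolve_left hzn)
  refine ⟨torus_card hd, ?_, torus_trace hd, ?_, h5⟩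
  · have hsub : (Nor y : Set (SL K)) ⊆ {x : SL K | (x : M2 K) * y = y * (x : M2 K)} ∪
        {x : SL K | x ∈ Nor y ∧ (x : M2 K) * y ≠ y * (x : M2 K)} := by
      intro x hx
      by_cases h : (x : M2 K) * y = y * (x : M2 K)
      · left; exact h
      · right; exact ⟨hx, h⟩
    have hout : Set.ncard {x : SL K | x ∈ Nor y ∧ (x : M2 K) * y ≠ y * (x : M2 K)} ≤
        Set.ncard {x : SL K | (x : M2 K) * y = y * (x : M2 K)} := by
      rcases Set.eq_empty_or_nonempty {x : SL K | x ∈ Nor y ∧ (x : M2 K) * y ≠ y * (x : M2 K)}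
        with h | ⟨x0, hx0, hx0n⟩
      · rw [h]; simp
      · apply Set.ncard_le_ncard_of_injOn (fun x => x0 * x)
        · rintro x ⟨hx, hxn⟩
          exact h5 x0 hx0 x hx hx0n hxn
        · intro x _ z _ h
          exact mul_left_cancel h
    have h1 : Nat.card (Nor y) = Set.ncard (Nor y : Set (SL K)) := rfl
    rw [h1]
    have h2 := Set.ncard_le_ncard hsub (Set.toFinite _)
    have h3 := Set.ncard_union_le {x : SL K | (x : M2 K) * y = y * (x : M2 K)}
        {x : SL K | x ∈ Nor y ∧ (x : M2 K) * y ≠ y * (x : M2 K)}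
    have h4 := torus_card hd
    omega
  · intro x hx hxn
    exact tr_zero hd (hx.resolve_left hxn)

end

end Pool.FG.helper27
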