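import Pool.Agent.Work.MP_65e34f.Basic

namespace Pool.FG.helper27.upn

open Matrix

section
variable {K : Type} [Field K]

/-- the elements of the torus -/
def inn (y : M2 K) (x : SL K) : Prop := (x : M2 K) * y = y * (x : M2 K)

lemma inn_mul {y : M2 K} {x z : SL K} (hx : inn y x) (hz : inn y z) : inn y (x * z) := by
  unfold inn at *
  rw [Matrix.SpecialLinearGroup.coe_mul, mul_assoc, hz, ← mul_assoc, hx, mul_assoc]

lemma inn_inv {y : M2 K} {x : SL K} (hx : inn y x) : inn y x⁻¹ := by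
  unfold inn at *
  rw [inv_eq, sub_mul, mul_sub, hx]
  simp

lemma inn_inv_iff {y : M2 K} {x : SL K} : inn y x⁻¹ ↔ inn y x :=
  ⟨fun h => by simpa using inn_inv h, inn_inv⟩

lemma inn_of_Sc {y : M2 K} {x : SL K} (hx : Sc x) : inn y x := by
  rcases hx with rfl | rfl <;> simp [inn]

lemma inn_mul_iff (hTOB : Stmt_TOB) [Finite K] {y : M2 K} (hd : dsc y ≠ 0) {x z : SL K}
    (hx : x ∈ Nor y) (hz : z ∈ Nor y) : inn y (x * z) ↔ (inn y x ↔ inn y z) := by
  obtain ⟨_, _, _, _, h5⟩ := hTOB K y hd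
  constructor
  · intro h
    constructor
    · intro h1
      have : z = x⁻¹ * (x * z) := by group
      rw [this]
      exact inn_mul (inn_inv h1) h
    · intro h1
      have : x = (x * z) * z⁻¹ := by group
      rw [this]
      exact inn_mul h (inn_inv h1)
  · intro h
    by_cases h1 : inn y x
    · exact inn_mul h1 (h.mp h1)
    · exact h5 x hx z hz h1 (fun h2 => h1 (h.mpr h2))

open Classical in
/-- number of entries outside the torus -/
noncomputable def nout (y : M2 K) : List (SL K) → ℕ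
  | [] => 0
  | x :: xs => (if inn y x then 0 else 1) + nout y xs

lemma inn_prod_iff (hTOB : Stmt_TOB) [Finite K] {y : M2 K} (hd : dsc y ≠ 0) (xs : List (SL K))
    (hx : ∀ x ∈ xs, x ∈ Nor y) : inn y xs.prod ↔ nout y xs % 2 = 0 := by
  classical
  induction xs with
  | nil => simp [nout, inn]
  | cons x xs ih =>
    have ih' := ih (fun z hz => hx z (by simp [hz]))
    rw [List.prod_cons, inn_mul_iff hTOB hd (hx x (by simp))
      ((Nor y).list_prod_mem (fun z hz => hx z (by simp [hz]))), ih', nout]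
    by_cases h : inn y x
    · rw [if_pos h, zero_add]; exact ⟨fun h1 => h1.mp h, fun h1 => ⟨fun _ => h1, fun _ => h⟩⟩
    · rw [if_neg h]
      constructor
      · intro h1
        have : ¬ nout y xs % 2 = 0 := fun h2 => h (h1.mpr h2)
        omega
      · intro h1
        constructor
        · intro h2; exact absurd h2 h
        · intro h2; omega

/-- outer elements have `x² = -1`; odd powers are not scalar -/
lemma not_Sc_pow_of_odd (hTOB : Stmt_TOB) [Finite K] {y : M2 K} (hd : dsc y ≠ 0) {x : SL K}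
    (hx : x ∈ Nor y) (hn : ¬ inn y x) {m : ℕ} (hm : m % 2 = 1) : ¬ Sc (x ^ m) := by
  intro h
  obtain ⟨_, _, _, h4, _⟩ := hTOB K y hd
  have ht : tr x = 0 := h4 x hx hn
  have h2 : x ^ 2 = -1 := by
    have := mul_self_eq x
    rw [ht, zero_smul, zero_sub] at this
    apply Subtype.ext
    rw [pow_two, Matrix.SpecialLinearGroup.coe_mul, this]
    simp
  obtain ⟨k, rfl⟩ : ∃ k, m = 2 * k + 1 := ⟨m / 2, by omega⟩
  rw [pow_succ, pow_mul, h2] at h
  apply hn
  have h3 : Sc ((-1 : SL K) ^ k) := Sc_neg_one.pow k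
  have h4 : x = ((-1 : SL K) ^ k)⁻¹ * ((-1 : SL K) ^ k * x) := by group
  rw [h4]
  exact inn_of_Sc (h3.inv.mul h)

lemma nout_le_ev (hTOB : Stmt_TOB) [Finite K] {y : M2 K} (hd : dsc y ≠ 0) (ds : List ℕ)
    (xs : List (SL K)) (h : xs ∈ Xs ds (Nor y)) : nout y xs ≤ ev ds := by
  classical
  induction ds generalizing xs with
  | nil => simp at h; subst h; simp [nout]
  | cons m ds ih =>
    obtain ⟨x, ys, rfl, h1, h2, h3⟩ := mem_Xs_cons.mp h
    have ih' := ih ys h3
    rw [nout]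
    by_cases hi : inn y x
    · rw [if_pos hi]
      have : ev ds ≤ ev (m :: ds) := by
        unfold ev
        rw [List.filter_cons]
        split <;> simp
      omega
    · rw [if_neg hi]
      have hm : m % 2 = 0 := by
        by_contra hm
        exact not_Sc_pow_of_odd hTOB hd h1 hi (by omega) h2
      have : ev (m :: ds) = ev ds + 1 := by
        unfold ev
        rw [List.filter_cons_of_pos (by simpa using hm)]
        simp
      omega

end

lemma count_lists (hTOB : Stmt_TOB) (hTRM : Stmt_TRM) (ds : List ℕ) (hds : ∀ m ∈ ds, 1 ≤ m) :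
    ∃ C : ℕ, ∀ (K : Type) [Field K] [Finite K] (y : M2 K), dsc y ≠ 0 → ∀ k : ℕ,
      Set.ncard {xs | xs ∈ Xs ds (Nor y) ∧ nout y xs ≤ k} ≤ C * Nat.card K ^ k := by
  classical
  induction ds with
  | nil =>
    refine ⟨1, fun K _ _ y hd k => ?_⟩
    have h1 : {xs : List (SL K) | xs ∈ Xs [] (Nor y) ∧ nout y xs ≤ k} ⊆ {[]} := by
      rintro xs ⟨h, _⟩; simpa using h
    have h2 := Set.ncard_le_ncard h1 (Set.toFinite _)
    rw [Set.ncard_singleton] at h2
    have h3 : 1 ≤ Nat.card K ^ k := Nat.one_le_pow _ _ Nat.card_pos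
    omega
  | cons m ds ih =>
    obtain ⟨C, hC⟩ := ih (fun z hz => hds z (by simp [hz]))
    refine ⟨(4 * m + 2) * C, fun K _ _ y hd k => ?_⟩
    obtain ⟨_, hN, h3, _, _⟩ := hTOB K y hd
    have hm : 1 ≤ m := hds m (by simp)
    -- the torus part
    have hin : Set.ncard {x : SL K | inn y x ∧ Sc (x ^ m)} ≤ 4 * m := by
      have h := ncard_le_mul_of_fiber (s := {x : SL K | inn y x ∧ Sc (x ^ m)})
        (t := {τ : K | ∃ x : SL K, Sc (x ^ m) ∧ tr x = τ}) (Set.toFinite _) (Set.toFinite _) tr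
        (fun x hx => ⟨x, hx.2, rfl⟩) 2
        (fun τ _ => by
          refine (Set.ncard_le_ncard ?_ (Set.toFinite _)).trans (h3 τ)
          rintro x ⟨⟨h1, _⟩, h2⟩
          exact ⟨h1, h2⟩)
      have h2 := hTRM K m hm
      have h4 : (Set.ncard {τ : K | ∃ x : SL K, Sc (x ^ m) ∧ tr x = τ}) * 2 ≤ 2 * m * 2 :=
        Nat.mul_le_mul_right _ h2
      omega
    have hout : Set.ncard {x : SL K | x ∈ Nor y ∧ ¬ inn y x} ≤ 2 * Nat.card K := by
      obtain ⟨hT, _, _, _, h5⟩ := hTOB K y hd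
      rcases Set.eq_empty_or_nonempty {x : SL K | x ∈ Nor y ∧ ¬ inn y x}
        with h | ⟨x0, hx0, hx0n⟩
      · rw [h]; simp
      · refine le_trans ?_ hT
        apply Set.ncard_le_ncard_of_injOn (fun x => x0 * x)
        · rintro x ⟨hx, hxn⟩
          exact h5 x0 hx0 x hx hx0n hxn
        · intro x _ z _ h
          exact mul_left_cancel h
    have hfin : ∀ j : ℕ, {xs | xs ∈ Xs ds (Nor y) ∧ nout y xs ≤ j}.Finite := fun j =>
      (Xs_finite ds (Nor y)).subset (fun xs h => h.1)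
    have hfin2 : ∀ j : ℕ, {xs | xs ∈ Xs ds (Nor y) ∧ nout y xs + 1 ≤ j}.Finite := fun j =>
      (Xs_finite ds (Nor y)).subset (fun xs h => h.1)
    have hcov : {xs | xs ∈ Xs (m :: ds) (Nor y) ∧ nout y xs ≤ k} ⊆
        (fun w : SL K × List (SL K) => w.1 :: w.2) ''
          ({x : SL K | inn y x ∧ Sc (x ^ m)} ×ˢ {xs | xs ∈ Xs ds (Nor y) ∧ nout y xs ≤ k}) ∪
        (fun w : SL K × List (SL K) => w.1 :: w.2) ''
          ({x : SL K | x ∈ Nor y ∧ ¬ inn y x} ×ˢ {xs | xs ∈ Xs ds (Nor y) ∧ nout y xs + 1 ≤ k}) := by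
      rintro xs ⟨hxs, hk⟩
      obtain ⟨x, ys, rfl, h1, h2, h3⟩ := mem_Xs_cons.mp hxs
      rw [nout] at hk
      by_cases hi : inn y x
      · rw [if_pos hi] at hk
        left
        exact ⟨(x, ys), ⟨⟨hi, h2⟩, h3, by show nout y ys ≤ k; omega⟩, rfl⟩
      · rw [if_neg hi] at hk
        right
        exact ⟨(x, ys), ⟨⟨h1, hi⟩, h3, by show nout y ys + 1 ≤ k; omega⟩, rfl⟩
    have hA : ((fun w : SL K × List (SL K) => w.1 :: w.2) ''
          ({x : SL K | inn y x ∧ Sc (x ^ m)} ×ˢ {xs | xs ∈ Xs ds (Nor y) ∧ nout y xs ≤ k})).ncard ≤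
        4 * m * (C * Nat.card K ^ k) := by
      refine (Set.ncard_image_le ((Set.toFinite _).prod (hfin k))).trans ?_
      rw [Set.ncard_prod]
      exact Nat.mul_le_mul hin (hC K y hd k)
    have hB : ((fun w : SL K × List (SL K) => w.1 :: w.2) ''
          ({x : SL K | x ∈ Nor y ∧ ¬ inn y x} ×ˢ
            {xs | xs ∈ Xs ds (Nor y) ∧ nout y xs + 1 ≤ k})).ncard ≤
        2 * (C * Nat.card K ^ k) := by
      refine (Set.ncard_image_le ((Set.toFinite _).prod (hfin2 k))).trans ?_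
      rw [Set.ncard_prod]
      cases k with
      | zero =>
        have : {xs | xs ∈ Xs ds (Nor y) ∧ nout y xs + 1 ≤ 0} = ∅ := by
          ext xs; simp
        rw [this]; simp
      | succ k =>
        have : {xs | xs ∈ Xs ds (Nor y) ∧ nout y xs + 1 ≤ k + 1} =
            {xs | xs ∈ Xs ds (Nor y) ∧ nout y xs ≤ k} := by
          ext xs; simp
        rw [this]
        calc _ ≤ 2 * Nat.card K * (C * Nat.card K ^ k) := Nat.mul_le_mul hout (hC K y hd k)
          _ = 2 * (C * Nat.card K ^ (k + 1)) := by ring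
    have hU := Set.ncard_union_le ((fun w : SL K × List (SL K) => w.1 :: w.2) ''
          ({x : SL K | inn y x ∧ Sc (x ^ m)} ×ˢ {xs | xs ∈ Xs ds (Nor y) ∧ nout y xs ≤ k}))
        ((fun w : SL K × List (SL K) => w.1 :: w.2) ''
          ({x : SL K | x ∈ Nor y ∧ ¬ inn y x} ×ˢ
            {xs | xs ∈ Xs ds (Nor y) ∧ nout y xs + 1 ≤ k}))
    have hS := Set.ncard_le_ncard hcov
      ((((Set.toFinite _).prod (hfin k)).image _).union (((Set.toFinite _).prod (hfin2 k)).image _))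
    have hfinal : (4 * m + 2) * C * Nat.card K ^ k =
        4 * m * (C * Nat.card K ^ k) + 2 * (C * Nat.card K ^ k) := by ring
    rw [hfinal]
    omega

/-- reduction to the count of lists -/
lemma tup_le (hTOB : Stmt_TOB) {K : Type} [Field K] [Finite K] {y : M2 K} (hd : dsc y ≠ 0)
    (W : Wd) (ds : List ℕ) (k B : ℕ)
    (hk : ∀ t ∈ Tup W ds (Nor y), nout y t.1 ≤ k)
    (hB : Set.ncard {xs | xs ∈ Xs ds (Nor y) ∧ nout y xs ≤ k} ≤ B) :
    (Tup W ds (Nor y)).ncard ≤ B * (4 * Nat.card K) ^ W.n := by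
  obtain ⟨_, hN, _, _, _⟩ := hTOB K y hd
  have hsub : Tup W ds (Nor y) ⊆ {xs | xs ∈ Xs ds (Nor y) ∧ nout y xs ≤ k} ×ˢ
      {w : Fin W.n → SL K | ∀ j, w j ∈ Nor y} := by
    rintro ⟨xs, w⟩ h
    exact ⟨⟨h.1, hk _ h⟩, h.2.1⟩
  have hfin : {xs | xs ∈ Xs ds (Nor y) ∧ nout y xs ≤ k}.Finite :=
    (Xs_finite ds (Nor y)).subset (fun xs h => h.1)
  have h1 := Set.ncard_le_ncard hsub (hfin.prod (Set.toFinite _))
  rw [Set.ncard_prod] at h1
  refine h1.trans (Nat.mul_le_mul hB ?_)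
  have h2 : Set.ncard {w : Fin W.n → SL K | ∀ j, w j ∈ Nor y} ≤ Nat.card (Fin W.n → Nor y) := by
    rw [← Nat.card_coe_set_eq]
    apply Nat.card_le_card_of_injective
      (fun w : {w : Fin W.n → SL K | ∀ j, w j ∈ Nor y} => fun j => (⟨w.1 j, w.2 j⟩ : Nor y))
    intro w w' h
    apply Subtype.ext
    funext j
    have := congrFun h j
    exact congrArg Subtype.val this
  refine h2.trans ?_
  rw [Nat.card_fun, Nat.card_eq_fintype_card (α := Fin W.n), Fintype.card_fin]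
  exact Nat.pow_le_pow_left hN _

lemma even_of_inn (hTOB : Stmt_TOB) {K : Type} [Field K] [Finite K] {y : M2 K} (hd : dsc y ≠ 0)
    {ds : List ℕ} {xs : List (SL K)} (h : xs ∈ Xs ds (Nor y)) {z : SL K} (hz : z ∈ Nor y)
    (hzi : inn y z) (hs : Sc (xs.prod * z)) : nout y xs ≤ 2 * (ev ds / 2) := by
  have h1 : inn y xs.prod := by
    have h2 := (inn_mul_iff hTOB hd (prod_mem_of_mem_Xs h) hz).mp (inn_of_Sc hs)
    exact h2.mpr hzi
  have h3 := (inn_prod_iff hTOB hd xs (mem_of_mem_Xs h)).mp h1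
  have h4 := nout_le_ev hTOB hd ds xs h
  omega

end Pool.FG.helper27.upn

namespace Pool.FG.helper27

open upn

theorem stmt_UPN (hTOB : Stmt_TOB) (hTRM : Stmt_TRM) : Stmt_UPN := by
  intro W ds hds
  obtain ⟨C, hC⟩ := count_lists hTOB hTRM ds hds
  refine ⟨C * 4 ^ W.n, fun K _ _ y hd => ?_⟩
  have hsq : ∀ w ∈ Nor y, w ^ 2 ∈ Nor y ∧ inn y (w ^ 2) := by
    intro w hw
    refine ⟨(Nor y).pow_mem hw 2, ?_⟩
    rw [pow_two]
    exact (inn_mul_iff hTOB hd hw hw).mpr Iff.rfl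
  have key : ∀ k : ℕ, (∀ t ∈ Tup W ds (Nor y), nout y t.1 ≤ k) → k + W.n = dimN W ds →
      (Tup W ds (Nor y)).ncard ≤ C * 4 ^ W.n * Nat.card K ^ dimN W ds := by
    intro k hk hkn
    refine (tup_le hTOB hd W ds k _ hk (hC K y hd k)).trans (le_of_eq ?_)
    rw [← hkn, pow_add, mul_pow]
    ring
  cases W with
  | free r =>
    exact key (ev ds) (fun t ht => nout_le_ev hTOB hd ds t.1 ht.1) rfl
  | zero =>
    refine key (2 * (ev ds / 2)) (fun t ht => ?_) rfl
    have hs : Sc t.1.prod := ht.2.2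
    have h1 : inn y (1 : SL K) := inn_of_Sc Sc_one
    exact even_of_inn hTOB hd ht.1 (Nor y).one_mem h1 (by rw [mul_one]; exact hs)
  | comm =>
    refine key (2 * (ev ds / 2)) (fun t ht => ?_) rfl
    obtain ⟨hx, hw, hs⟩ := ht
    have ha := hw (0 : Fin 2)
    have hb := hw (1 : Fin 2)
    have hs' : Sc (t.1.prod * cm (t.2 (0 : Fin 2)) (t.2 (1 : Fin 2))) := hs
    have hai := (Nor y).inv_mem ha
    have hbi := (Nor y).inv_mem hb
    have h1 := (Nor y).mul_mem ha hb
    have h2 := (Nor y).mul_mem h1 hai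
    have h3 := (Nor y).mul_mem h2 hbi
    refine even_of_inn hTOB hd hx h3 ?_ hs'
    rw [inn_mul_iff hTOB hd h2 hbi, inn_mul_iff hTOB hd h1 hai, inn_mul_iff hTOB hd ha hb,
      inn_inv_iff, inn_inv_iff]
    tauto
  | sq =>
    refine key (2 * (ev ds / 2)) (fun t ht => ?_) rfl
    obtain ⟨hx, hw, hs⟩ := ht
    have ha := hw (0 : Fin 1)
    exact even_of_inn hTOB hd hx (hsq _ ha).1 (hsq _ ha).2 hs
  | sq2 =>
    refine key (2 * (ev ds / 2)) (fun t ht => ?_) rfl
    obtain ⟨hx, hw, hs⟩ := ht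
    have ha := hsq _ (hw (0 : Fin 2))
    have hb := hsq _ (hw (1 : Fin 2))
    exact even_of_inn hTOB hd hx ((Nor y).mul_mem ha.1 hb.1) (inn_mul ha.2 hb.2) hs

end Pool.FG.helper27
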